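import Mathlib

set_option autoImplicit false

/-!
# A finite ring, both alternative and Jordan, without a finite basis of quasi-identities

The ring has nine elements: it is the ring `x F_3[x] / (x ^ 3)`, which is commutative and associative.
-/

namespace Pool.Agent.Results.MP_db5ef1_al.NoFiniteBasis

/-- Terms in the signature `{+, -, 0, ·}` of rings, in the variables `x_0, x_1, ...`. -/
inductive Tm : Type
  | var : ℕ → Tm
  | zero : Tm
  | neg : Tm → Tm
  | add : Tm → Tm → Tm
  | mul : Tm → Tm → Tm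

/-- The value of a term in a structure `R` when the variable `x_i` takes the value `v i`. -/
def Tm.eval {R : Type} [Zero R] [Neg R] [Add R] [Mul R] (v : ℕ → R) : Tm → R
  | .var i => v i
  | .zero => 0
  | .neg t => - t.eval v
  | .add s t => s.eval v + t.eval v
  | .mul s t => s.eval v * t.eval v

/-- A quasi-identity: finitely many equations between terms (the premises) and one more equation
between terms (the conclusion). -/
structure QuasiIdentity : Type where
  premises : List (Tm × Tm)
  conclusion : Tm × Tm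

/-- The quasi-identity `q` is true in the structure `R`: under every assignment of values to the
variables which makes all the premises true, the conclusion is true. -/
def QuasiIdentity.Holds (R : Type) [Zero R] [Neg R] [Add R] [Mul R] (q : QuasiIdentity) : Prop :=
  ∀ v : ℕ → R, (∀ p ∈ q.premises, p.1.eval v = p.2.eval v) →
    q.conclusion.1.eval v = q.conclusion.2.eval v

/-- `Σ` is a basis of quasi-identities of `R`: the quasi-identities in `Σ` are true in `R`, and every
quasi-identity true in `R` is true in every structure in which all of `Σ` is true. -/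
def IsBasis (R : Type) [Zero R] [Neg R] [Add R] [Mul R] (S : Set QuasiIdentity) : Prop :=
  (∀ q ∈ S, q.Holds R) ∧
    ∀ q : QuasiIdentity, q.Holds R →
      ∀ (B : Type) [Zero B] [Neg B] [Add B] [Mul B], (∀ s ∈ S, s.Holds B) → q.Holds B

/-! ### Rings of nilpotency class two from bilinear maps -/

section NR

variable {F V Q : Type} [Field F] [AddCommGroup V] [Module F V] [AddCommGroup Q] [Module F Q]

/-- `V × Q` with the product `(v, q) (w, r) = (0, β v w)` -/
def NR (_β : V →ₗ[F] V →ₗ[F] Q) : Type := V × Q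

instance (β : V →ₗ[F] V →ₗ[F] Q) : AddCommGroup (NR β) := inferInstanceAs (AddCommGroup (V × Q))

instance (β : V →ₗ[F] V →ₗ[F] Q) : Mul (NR β) := ⟨fun a b => ((0 : V), β a.1 b.1)⟩

theorem NR.mul_def (β : V →ₗ[F] V →ₗ[F] Q) (a b : NR β) : a * b = ((0 : V), β a.1 b.1) := rfl

instance (β : V →ₗ[F] V →ₗ[F] Q) : NonUnitalNonAssocRing (NR β) :=
  { (inferInstance : AddCommGroup (NR β)), (inferInstance : Mul (NR β)) with
    left_distrib := fun a b c => by
      change ((0 : V), β a.1 (b.1 + c.1)) = ((0 : V) + 0, β a.1 b.1 + β a.1 c.1)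
      rw [map_add, add_zero]
    right_distrib := fun a b c => by
      change ((0 : V), β (a.1 + b.1) c.1) = ((0 : V) + 0, β a.1 c.1 + β b.1 c.1)
      rw [map_add, add_zero]; rfl
    zero_mul := fun a => by
      change ((0 : V), β (0 : V) a.1) = ((0 : V), (0 : Q))
      rw [map_zero]; rfl
    mul_zero := fun a => by
      change ((0 : V), β a.1 (0 : V)) = ((0 : V), (0 : Q))
      rw [map_zero] }

theorem NR.mul_mul_left (β : V →ₗ[F] V →ₗ[F] Q) (a b c : NR β) : (a * b) * c = 0 := by
  change ((0 : V), β (0 : V) c.1) = ((0 : V), (0 : Q))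
  rw [map_zero]; rfl

theorem NR.mul_mul_right (β : V →ₗ[F] V →ₗ[F] Q) (a b c : NR β) : a * (b * c) = 0 := by
  change ((0 : V), β a.1 (0 : V)) = ((0 : V), (0 : Q))
  rw [map_zero]

end NR

/-- The ring with nine elements: pairs `(a, b)` of elements of `F_3`, which stand for `a x + b x ^ 2`. -/
abbrev A9 : Type := NR (LinearMap.mul (ZMod 3) (ZMod 3))

instance : Finite A9 := inferInstanceAs (Finite (ZMod 3 × ZMod 3))

/-! ### The large rings -/

section Big

variable (F E : Type) [Field F] [Field E] [Algebra F E]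

abbrev Dl : Type := E →ₗ[F] F
abbrev Fm : Type := E →ₗ[F] E →ₗ[F] F

instance : AddCommGroup (Fm F E) := inferInstance

variable {F E}

/-- the forms `(x, y) ↦ Tr (a x y)` -/
noncomputable def tr (a : E) : Fm F E :=
  LinearMap.mk₂ F (fun x y => Algebra.trace F E (a * x * y))
    (fun x x' y => by rw [mul_add, add_mul, map_add])
    (fun c x y => by
      rw [mul_smul_comm, smul_mul_assoc, map_smul])
    (fun x y y' => by rw [mul_add, map_add])
    (fun c x y => by rw [mul_smul_comm, map_smul])

theorem tr_apply (a x y : E) : (tr a : Fm F E) x y = Algebra.trace F E (a * x * y) := rfl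

variable (F E) in
noncomputable def trL : E →ₗ[F] Fm F E where
  toFun := tr
  map_add' a b := by
    ext x y
    simp only [tr_apply, LinearMap.add_apply, add_mul, map_add]
  map_smul' c a := by
    ext x y
    simp only [tr_apply, LinearMap.smul_apply, smul_mul_assoc, map_smul, RingHom.id_apply]

/-- the symmetric product `v ⊗ w + w ⊗ v` of two functionals -/
noncomputable def sp (v w : Dl F E) : Fm F E := v.smulRight w + w.smulRight v

theorem sp_apply (v w : Dl F E) (x y : E) : sp v w x y = v x * w y + w x * v y := by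
  simp [sp]

variable (F E) in
noncomputable abbrev Kf : Submodule F (Fm F E) := LinearMap.range (trL F E)

variable (F E) in
noncomputable def bt : Dl F E →ₗ[F] Dl F E →ₗ[F] (Fm F E ⧸ Kf F E) :=
  LinearMap.mk₂ F (fun v w => (Kf F E).mkQ (sp v w))
    (fun v v' w => by
      rw [← map_add]; congr 1
      ext x y; simp only [sp_apply, LinearMap.add_apply]; ring)
    (fun c v w => by
      rw [← map_smul]; congr 1
      ext x y; simp only [sp_apply, LinearMap.smul_apply, smul_eq_mul]; ring)
    (fun v w w' => by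
      rw [← map_add]; congr 1
      ext x y; simp only [sp_apply, LinearMap.add_apply]; ring)
    (fun c v w => by
      rw [← map_smul]; congr 1
      ext x y; simp only [sp_apply, LinearMap.smul_apply, smul_eq_mul]; ring)

theorem bt_apply (v w : Dl F E) : bt F E v w = (Kf F E).mkQ (sp v w) := rfl

variable (F E) in
/-- the large ring -/
abbrev Bg : Type := NR (bt F E)

/-- symmetric forms with `e` in the radical -/
def Sy (e : E) : Submodule F (Fm F E) where
  carrier := {b | (∀ x y, b x y = b y x) ∧ ∀ y, b e y = 0}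
  zero_mem' := ⟨fun x y => rfl, fun y => rfl⟩
  add_mem' := by
    rintro b c ⟨h1, h2⟩ ⟨h3, h4⟩
    exact ⟨fun x y => by simp only [LinearMap.add_apply, h1 x y, h3 x y],
      fun y => by simp only [LinearMap.add_apply, h2 y, h4 y, add_zero]⟩
  smul_mem' := by
    rintro c b ⟨h1, h2⟩
    exact ⟨fun x y => by simp only [LinearMap.smul_apply, h1 x y],
      fun y => by simp only [LinearMap.smul_apply, h2 y, smul_zero]⟩

theorem sp_mem_Sy {e : E} {v w : Dl F E} (hv : v e = 0) (hw : w e = 0) : sp v w ∈ Sy e := by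
  refine ⟨fun x y => ?_, fun y => ?_⟩
  · rw [sp_apply, sp_apply]; ring
  · rw [sp_apply, hv, hw]; ring

variable [FiniteDimensional F E] [Algebra.IsSeparable F E]

theorem tr_eq_zero {a e : E} (he : e ≠ 0) (h : ∀ y, (tr a : Fm F E) e y = 0) : a = 0 := by
  have h1 : ∀ y, Algebra.traceForm F E (a * e) y = 0 := by
    intro y
    rw [Algebra.traceForm_apply]
    exact h y
  have h2 := (traceForm_nondegenerate F E).1 (a * e) h1
  rcases mul_eq_zero.1 h2 with h3 | h3
  · exact h3
  · exact absurd h3 he

theorem Kf_disj {e : E} (he : e ≠ 0) {b : Fm F E} (hb : b ∈ Kf F E) (hb' : b ∈ Sy e) : b = 0 := by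
  obtain ⟨a, rfl⟩ := hb
  have : a = 0 := tr_eq_zero (F := F) he hb'.2
  rw [this, map_zero]

theorem two_tr {ι : Type} [Fintype ι] [DecidableEq ι] (b : Module.Basis ι F E) (a : E) :
    (∑ i, ∑ j, (tr a : Fm F E) (b i) (b j) • sp (b.coord i) (b.coord j)) = (2 : F) • (tr a : Fm F E) := by
  refine LinearMap.ext_basis b b fun k l => ?_
  simp only [LinearMap.sum_apply, LinearMap.smul_apply, sp_apply, Module.Basis.coord_apply,
    Module.Basis.repr_self, Finsupp.single_apply, smul_eq_mul]
  have h1 : ∀ i j : ι, (tr a : Fm F E) (b i) (b j) *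
      ((if k = i then (1 : F) else 0) * (if l = j then 1 else 0) +
        (if k = j then 1 else 0) * (if l = i then 1 else 0)) =
      (if k = i then (if l = j then (tr a : Fm F E) (b i) (b j) else 0) else 0) +
        (if l = i then (if k = j then (tr a : Fm F E) (b i) (b j) else 0) else 0) := by
    intro i j
    split_ifs <;> ring
  simp only [h1, Finset.sum_add_distrib, Finset.sum_ite_eq, Finset.mem_univ, if_true,
    Finset.sum_ite_irrel, Finset.sum_const_zero]
  have h2 : (tr a : Fm F E) (b l) (b k) = (tr a : Fm F E) (b k) (b l) := by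
    rw [tr_apply, tr_apply]
    congr 1
    ring
  rw [h2]; ring

/-- A functional on the quotient which is a square on the products of functionals is zero there. -/
theorem key_zero (h2 : (2 : F) ≠ 0) (y : (Fm F E ⧸ Kf F E) →ₗ[F] F) (α : Dl F E →ₗ[F] F)
    (h : ∀ v w, y (bt F E v w) = α v * α w) : α = 0 := by
  obtain ⟨x, hx⟩ := (Module.evalEquiv F E).surjective α
  have hα : ∀ v : Dl F E, α v = v x := by
    intro v
    rw [← hx]
    rfl
  have hb := Module.finBasis F E
  have key : ∀ a : E, (tr a : Fm F E) x x = 0 := by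
    intro a
    have h3 := congrArg (fun f => y ((Kf F E).mkQ f)) (two_tr hb a)
    simp only [map_sum, map_smul] at h3
    have h4 : (Kf F E).mkQ (tr a) = 0 := by
      rw [Submodule.mkQ_apply, Submodule.Quotient.mk_eq_zero]
      exact ⟨a, rfl⟩
    rw [h4, map_zero, smul_zero] at h3
    have h5 : ∀ i j, y ((Kf F E).mkQ (sp (hb.coord i) (hb.coord j))) = hb.repr x i * hb.repr x j := by
      intro i j
      rw [← bt_apply, h, hα, hα]
      rfl
    simp only [h5, smul_eq_mul] at h3
    rw [← LinearMap.sum_repr_mul_repr_mul hb hb x x, Finsupp.sum_fintype _ _ (by simp), ← h3]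
    refine Finset.sum_congr rfl fun i _ => ?_
    rw [Finsupp.sum_fintype _ _ (by simp)]
    refine Finset.sum_congr rfl fun j _ => ?_
    simp only [smul_eq_mul]; ring
  have hx0 : x = 0 := by
    by_contra hne
    have h6 : (1 : E) = 0 := by
      have h7 : ∀ y, Algebra.traceForm F E (x * x) y = 0 := by
        intro y
        rw [Algebra.traceForm_apply]
        have := key y
        rw [tr_apply] at this
        rw [← this]; congr 1; ring
      have h8 := (traceForm_nondegenerate F E).1 _ h7
      rcases mul_eq_zero.1 h8 with h9 | h9 <;> exact absurd h9 hne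
    exact one_ne_zero h6
  ext v
  rw [hα, hx0, map_zero]; rfl

/-- The maps to the small ring. -/
noncomputable def phi (α : Dl F E →ₗ[F] F) (μ : Dl F E →ₗ[F] F) (g : (Fm F E ⧸ Kf F E) →ₗ[F] F) (u : Bg F E) :
    NR (LinearMap.mul F F) := (α u.1, μ u.1 + g u.2)

theorem eval_phi {e : E} {α μ : Dl F E →ₗ[F] F} {g : (Fm F E ⧸ Kf F E) →ₗ[F] F}
    (h : ∀ v w : Dl F E, v e = 0 → w e = 0 → g (bt F E v w) = α v * α w) {v : ℕ → Bg F E}
    (hv : ∀ i, (v i).1 e = 0) (t : Tm) :
    (t.eval v).1 e = 0 ∧ phi α μ g (t.eval v) = t.eval (fun i => phi α μ g (v i)) := by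
  induction t with
  | var i => exact ⟨hv i, rfl⟩
  | zero => 
    refine ⟨rfl, ?_⟩
    change (α 0, μ 0 + g 0) = ((0 : F), (0 : F))
    rw [map_zero, map_zero, map_zero, add_zero]
  | neg t ih =>
    refine ⟨?_, ?_⟩
    · change -((t.eval v).1 e) = 0
      rw [ih.1, neg_zero]
    · change phi α μ g (-(t.eval v)) = -(t.eval (fun i => phi α μ g (v i)))
      rw [← ih.2]
      change (α (-(t.eval v).1), μ (-(t.eval v).1) + g (-(t.eval v).2)) = 
        (-(α (t.eval v).1), -(μ (t.eval v).1 + g (t.eval v).2))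
      rw [map_neg, map_neg, map_neg, neg_add]
  | add s t ihs iht =>
    refine ⟨?_, ?_⟩
    · change (s.eval v).1 e + (t.eval v).1 e = 0
      rw [ihs.1, iht.1, add_zero]
    · change phi α μ g (s.eval v + t.eval v) = 
        s.eval (fun i => phi α μ g (v i)) + t.eval (fun i => phi α μ g (v i))
      rw [← ihs.2, ← iht.2]
      change (α ((s.eval v).1 + (t.eval v).1), 
        μ ((s.eval v).1 + (t.eval v).1) + g ((s.eval v).2 + (t.eval v).2)) = 
        (α (s.eval v).1 + α (t.eval v).1, 
          (μ (s.eval v).1 + g (s.eval v).2) + (μ (t.eval v).1 + g (t.eval v).2))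
      rw [map_add, map_add, map_add]
      congr 1
      ring
  | mul s t ihs iht =>
    refine ⟨rfl, ?_⟩
    change phi α μ g (s.eval v * t.eval v) = 
        s.eval (fun i => phi α μ g (v i)) * t.eval (fun i => phi α μ g (v i))
    rw [← ihs.2, ← iht.2]
    change (α (0 : Dl F E), μ (0 : Dl F E) + g (bt F E (s.eval v).1 (t.eval v).1)) = 
      ((0 : F), α (s.eval v).1 * α (t.eval v).1)
    rw [map_zero, map_zero, zero_add, h _ _ ihs.1 iht.1]

/-- The maps to the small ring separate the elements with first component in the hyperplane. -/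
theorem exists_sep (h2 : (2 : F) ≠ 0) {e : E} (he : e ≠ 0) {s t : Bg F E} (hst : s ≠ t) :
    ∃ (α μ : Dl F E →ₗ[F] F) (g : (Fm F E ⧸ Kf F E) →ₗ[F] F),
      (∀ v w : Dl F E, v e = 0 → w e = 0 → g (bt F E v w) = α v * α w) ∧
      phi α μ g s ≠ phi α μ g t := by
  by_cases h1 : s.1 = t.1
  · have hz : s.2 - t.2 ≠ 0 := by
      intro h
      exact hst (Prod.ext h1 (sub_eq_zero.1 h))
    by_cases hS : s.2 - t.2 ∈ (Sy e).map (Kf F E).mkQ
    · obtain ⟨b, hb, hbz⟩ := hS
      have hb0 : b ≠ 0 := by
        rintro rfl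
        rw [map_zero] at hbz
        exact hz hbz.symm
      -- a vector with `b x x ≠ 0`
      obtain ⟨x, hx⟩ : ∃ x, b x x ≠ 0 := by
        by_contra hcon
        push Not at hcon
        apply hb0
        ext x y
        have h3 := hcon (x + y)
        simp only [map_add, LinearMap.add_apply, hcon, zero_add, add_zero, hb.1 y x] at h3
        have h4 : (2 : F) * b x y = 0 := by rw [← h3]; ring
        rcases mul_eq_zero.1 h4 with h5 | h5
        · exact absurd h5 h2
        · rw [h5]; rfl
      have hker : LinearMap.ker ((Kf F E).mkQ.comp (Sy e).subtype) = ⊥ := by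
        rw [LinearMap.ker_eq_bot']
        intro m hm
        have h3 : (m : Fm F E) ∈ Kf F E := by
          rw [LinearMap.comp_apply, Submodule.mkQ_apply, Submodule.Quotient.mk_eq_zero] at hm
          exact hm
        exact Subtype.ext (Kf_disj he h3 m.2)
      obtain ⟨G, hG⟩ := LinearMap.exists_leftInverse_of_injective _ hker
      have hG' : ∀ c (hc : c ∈ Sy e), G ((Kf F E).mkQ c) = ⟨c, hc⟩ := fun c hc => 
        LinearMap.congr_fun hG ⟨c, hc⟩
      let ev : Fm F E →ₗ[F] F := (LinearMap.applyₗ x).comp (LinearMap.applyₗ x)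
      have hev : ∀ c : Fm F E, ev c = c x x := fun c => rfl
      have hE : ∀ z, ((2 : F)⁻¹ • (ev.comp ((Sy e).subtype.comp G))) z = 
        (2 : F)⁻¹ * ((G z : Fm F E) x x) := fun _ => rfl
      refine ⟨LinearMap.applyₗ x, 0, (2 : F)⁻¹ • (ev.comp ((Sy e).subtype.comp G)), ?_, ?_⟩
      · intro v w hv hw
        have h3 := hG' _ (sp_mem_Sy hv hw)
        rw [hE, bt_apply, h3, sp_apply, LinearMap.applyₗ_apply_apply, 
          LinearMap.applyₗ_apply_apply]
        field_simp
        ring
      · intro h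
        have h3 := congrArg Prod.snd h
        change (0 : Dl F E →ₗ[F] F) s.1 + _ = (0 : Dl F E →ₗ[F] F) t.1 + _ at h3
        rw [LinearMap.zero_apply, LinearMap.zero_apply, zero_add, zero_add, ← sub_eq_zero, ← map_sub,
          ← hbz, hE, hG' b hb] at h3
        rcases mul_eq_zero.1 h3 with h4 | h4
        · exact h2 (inv_eq_zero.1 h4)
        · exact hx h4
    · obtain ⟨g, hg, hgk⟩ := Submodule.exists_le_ker_of_notMem hS
      refine ⟨0, 0, g, ?_, ?_⟩
      · intro v w hv hw
        have : bt F E v w ∈ (Sy e).map (Kf F E).mkQ := ⟨_, sp_mem_Sy hv hw, rfl⟩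
        rw [LinearMap.mem_ker.1 (hgk this)]; simp
      · intro h
        have h3 := congrArg Prod.snd h
        change (0 : Dl F E →ₗ[F] F) s.1 + g s.2 = (0 : Dl F E →ₗ[F] F) t.1 + g t.2 at h3
        rw [LinearMap.zero_apply, LinearMap.zero_apply, zero_add, zero_add, ← sub_eq_zero, ← map_sub] at h3
        exact hg h3
  · have h3 : s.1 - t.1 ∉ (⊥ : Submodule F (Dl F E)) := by
      rw [Submodule.mem_bot]
      exact sub_ne_zero.2 h1
    obtain ⟨μ, hμ, _⟩ := Submodule.exists_le_ker_of_notMem h3
    refine ⟨0, μ, 0, fun v w _ _ => by simp, fun h => ?_⟩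
    have h4 := congrArg Prod.snd h
    change μ s.1 + (0 : (Fm F E ⧸ Kf F E) →ₗ[F] F) s.2 = μ t.1 + (0 : (Fm F E ⧸ Kf F E) →ₗ[F] F) t.2 at h4
    rw [LinearMap.zero_apply, LinearMap.zero_apply, add_zero, add_zero, ← sub_eq_zero, ← map_sub] at h4
    exact hμ h4

end Big

/-! ### Terms with few variables -/

/-- an upper bound for the indices of the variables of a term -/
def Tm.bd : Tm → ℕ
  | .var i => i + 1
  | .zero => 0
  | .neg t => t.bd
  | .add s t => max s.bd t.bd
  | .mul s t => max s.bd t.bd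

theorem Tm.eval_congr {R : Type} [Zero R] [Neg R] [Add R] [Mul R] {v w : ℕ → R} (t : Tm)
    (h : ∀ i < t.bd, v i = w i) : t.eval v = t.eval w := by
  induction t with
  | var i => exact h i (Nat.lt_succ_self i)
  | zero => rfl
  | neg t ih => 
    change -(t.eval v) = -(t.eval w)
    rw [ih h]
  | add s t ihs iht =>
    change s.eval v + t.eval v = s.eval w + t.eval w
    rw [ihs fun i hi => h i (lt_max_of_lt_left hi), iht fun i hi => h i (lt_max_of_lt_right hi)]
  | mul s t ihs iht =>
    change s.eval v * t.eval v = s.eval w * t.eval w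
    rw [ihs fun i hi => h i (lt_max_of_lt_left hi), iht fun i hi => h i (lt_max_of_lt_right hi)]

/-- all the variables of `q` have index less than `n` -/
def QuasiIdentity.Few (q : QuasiIdentity) (n : ℕ) : Prop :=
  (∀ p ∈ q.premises, p.1.bd ≤ n ∧ p.2.bd ≤ n) ∧ q.conclusion.1.bd ≤ n ∧ q.conclusion.2.bd ≤ n

theorem exists_few (q : QuasiIdentity) : ∃ n, q.Few n := by
  obtain ⟨L, c⟩ := q
  have : ∃ n, ∀ p ∈ L, p.1.bd ≤ n ∧ p.2.bd ≤ n := by
    induction L with
    | nil => exact ⟨0, fun p hp => absurd hp (by simp)⟩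
    | cons a L ih =>
      obtain ⟨n, hn⟩ := ih
      refine ⟨max n (max a.1.bd a.2.bd), fun p hp => ?_⟩
      rcases List.mem_cons.1 hp with rfl | hp
      · exact ⟨by omega, by omega⟩
      · have := hn p hp
        exact ⟨by omega, by omega⟩
  obtain ⟨n, hn⟩ := this
  refine ⟨max n (max c.1.bd c.2.bd), fun p hp => ?_, ?_, ?_⟩
  · have := hn p hp
    exact ⟨by omega, by omega⟩
  · simp only; omega
  · simp only; omega

theorem QuasiIdentity.Few.mono {q : QuasiIdentity} {n m : ℕ} (h : q.Few n) (hnm : n ≤ m) : q.Few m :=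
  ⟨fun p hp => ⟨(h.1 p hp).1.trans hnm, (h.1 p hp).2.trans hnm⟩, h.2.1.trans hnm, h.2.2.trans hnm⟩

theorem exists_few_set (S : Set QuasiIdentity) (hS : S.Finite) : ∃ n, ∀ q ∈ S, q.Few n := by
  induction S, hS using Set.Finite.induction_on with
  | empty => exact ⟨0, fun q hq => absurd hq (Set.notMem_empty q)⟩
  | @insert a S _ _ ih =>
    obtain ⟨n, hn⟩ := ih
    obtain ⟨m, hm⟩ := exists_few a
    refine ⟨max n m, fun q hq => ?_⟩
    rcases hq with rfl | hq
    · exact hm.mono (le_max_right _ _)
    · exact (hn q hq).mono (le_max_left _ _)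

section Big2

variable {F E : Type} [Field F] [Field E] [Algebra F E] [FiniteDimensional F E]

theorem exists_e {n : ℕ} (hn : n < Module.finrank F E) (v : ℕ → Dl F E) :
    ∃ e : E, e ≠ 0 ∧ ∀ i < n, v i e = 0 := by
  have h1 : LinearMap.ker (LinearMap.pi (fun i : Fin n => v i)) ≠ ⊥ := by
    apply LinearMap.ker_ne_bot_of_finrank_lt
    rw [Module.finrank_fin_fun]
    exact hn
  obtain ⟨e, he, he0⟩ := Submodule.exists_mem_ne_zero_of_ne_bot h1
  refine ⟨e, he0, fun i hi => ?_⟩
  have h2 := congrFun (LinearMap.mem_ker.1 he) ⟨i, hi⟩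
  exact h2

variable [Algebra.IsSeparable F E]

theorem holds_Bg (h2 : (2 : F) ≠ 0) {n : ℕ} (hn : n < Module.finrank F E) {q : QuasiIdentity}
    (hq : q.Few n) (hA : q.Holds (NR (LinearMap.mul F F))) : q.Holds (Bg F E) := by
  intro v hv
  set v' : ℕ → Bg F E := fun i => if i < n then v i else 0 with hv'
  have hvv : ∀ i < n, v i = v' i := fun i hi => by rw [hv']; simp only; rw [if_pos hi]
  have hev : ∀ t : Tm, t.bd ≤ n → t.eval v = t.eval v' := fun t ht =>
    t.eval_congr fun i hi => hvv i (lt_of_lt_of_le hi ht)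
  obtain ⟨e, he, hee⟩ := exists_e hn (fun i => (v i).1)
  have hve : ∀ i, (v' i).1 e = 0 := by
    intro i
    by_cases hi : i < n
    · rw [← hvv i hi]
      exact hee i hi
    · rw [hv']; simp only; rw [if_neg hi]
      rfl
  rw [hev _ hq.2.1, hev _ hq.2.2]
  by_contra hne
  obtain ⟨α, μ, g, hg, hsep⟩ := exists_sep h2 he hne
  apply hsep
  rw [(eval_phi hg hve _).2, (eval_phi hg hve _).2]
  apply hA
  intro p hp
  rw [← (eval_phi hg hve _).2, ← (eval_phi hg hve _).2]
  have h3 := hv p hp
  rw [hev _ (hq.1 p hp).1, hev _ (hq.1 p hp).2] at h3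
  rw [h3]

theorem bt_ne_zero (h2 : (2 : F) ≠ 0) (hm : 1 < Module.finrank F E) {v : Dl F E} (hv : v ≠ 0) :
    bt F E v v ≠ 0 := by
  intro h
  obtain ⟨e, he, hee⟩ := exists_e hm (fun _ => v)
  have hve : v e = 0 := hee 0 Nat.one_pos
  rw [bt_apply, Submodule.mkQ_apply, Submodule.Quotient.mk_eq_zero] at h
  have h3 := Kf_disj he h (sp_mem_Sy hve hve)
  apply hv
  ext x
  have h4 : sp v v x x = 0 := by rw [h3]; rfl
  rw [sp_apply] at h4
  have h5 : (2 : F) * (v x * v x) = 0 := by rw [← h4]; ring
  rcases mul_eq_zero.1 h5 with h6 | h6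
  · exact absurd h6 h2
  · rw [LinearMap.zero_apply]
    exact mul_self_eq_zero.1 h6

end Big2

/-! ### The diagram quasi-identity -/

section Diagram

variable (B : Type) [Zero B] [Neg B] [Add B] [Mul B] [Finite B]

/-- the index of an element -/
noncomputable def idx (b : B) : ℕ := (Finite.equivFin B b : ℕ)

open Classical in
/-- the assignment -/
noncomputable def asg (i : ℕ) : B :=
  if h : i < Nat.card B then (Finite.equivFin B).symm ⟨i, h⟩ else 0

theorem asg_idx (b : B) : asg B (idx B b) = b := by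
  unfold asg idx
  rw [dif_pos (Finite.equivFin B b).2]
  simp

open Classical in
/-- the quasi-identity saying that a homomorphic image of `B` satisfies `z = 0` -/
noncomputable def diag (z : B) : QuasiIdentity where
  premises :=
    ((Finset.univ : Finset (Fin (Nat.card B) × Fin (Nat.card B))).toList.map fun p =>
      (Tm.add (Tm.var p.1) (Tm.var p.2),
        Tm.var (idx B ((Finite.equivFin B).symm p.1 + (Finite.equivFin B).symm p.2)))) ++
    ((Finset.univ : Finset (Fin (Nat.card B) × Fin (Nat.card B))).toList.map fun p =>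
      (Tm.mul (Tm.var p.1) (Tm.var p.2),
        Tm.var (idx B ((Finite.equivFin B).symm p.1 * (Finite.equivFin B).symm p.2))))
  conclusion := (Tm.var (idx B z), Tm.zero)

theorem not_holds_diag {z : B} (hz : z ≠ 0) : ¬ (diag B z).Holds B := by
  intro h
  apply hz
  have h1 := h (asg B) ?_
  · change asg B (idx B z) = 0 at h1
    rw [asg_idx] at h1
    exact h1
  · intro p hp
    simp only [diag, List.mem_append, List.mem_map, Finset.mem_toList, Finset.mem_univ, true_and] at hp
    rcases hp with ⟨⟨i, j⟩, rfl⟩ | ⟨⟨i, j⟩, rfl⟩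
    · change asg B i + asg B j = asg B (idx B _)
      rw [asg_idx]
      unfold asg
      rw [dif_pos i.2, dif_pos j.2]
    · change asg B i * asg B j = asg B (idx B _)
      rw [asg_idx]
      unfold asg
      rw [dif_pos i.2, dif_pos j.2]

theorem holds_diag {A : Type} [Zero A] [Neg A] [Add A] [Mul A] {z : B}
    (h : ∀ f : B → A, (∀ a b, f (a + b) = f a + f b) → (∀ a b, f (a * b) = f a * f b) → f z = 0) :
    (diag B z).Holds A := by
  intro v hv
  change v (idx B z) = 0
  refine h (fun b => v (idx B b)) (fun a b => ?_) (fun a b => ?_)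
  · have h1 := hv (Tm.add (Tm.var (idx B a)) (Tm.var (idx B b)), Tm.var (idx B (a + b))) ?_
    · exact h1.symm
    · simp only [diag, List.mem_append, List.mem_map, Finset.mem_toList, Finset.mem_univ, true_and]
      left
      refine ⟨(Finite.equivFin B a, Finite.equivFin B b), ?_⟩
      simp [idx]
  · have h1 := hv (Tm.mul (Tm.var (idx B a)) (Tm.var (idx B b)), Tm.var (idx B (a * b))) ?_
    · exact h1.symm
    · simp only [diag, List.mem_append, List.mem_map, Finset.mem_toList, Finset.mem_univ, true_and]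
      right
      refine ⟨(Finite.equivFin B a, Finite.equivFin B b), ?_⟩
      simp [idx]

end Diagram

/-! ### The theorem -/

instance : Fact (Nat.Prime 3) := ⟨Nat.prime_three⟩

/-- the element with given components -/
def mkB {F E : Type} [Field F] [Field E] [Algebra F E] (v : Dl F E) (q : Fm F E ⧸ Kf F E) : Bg F E := (v, q)

theorem mkB_add {F E : Type} [Field F] [Field E] [Algebra F E] (v w : Dl F E) (q r : Fm F E ⧸ Kf F E) :
    mkB (v + w) (q + r) = mkB v q + mkB w r := rfl

theorem mkB_mul {F E : Type} [Field F] [Field E] [Algebra F E] (v w : Dl F E) (q r : Fm F E ⧸ Kf F E) :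
    mkB 0 (bt F E v w) = mkB v q * mkB w r := rfl

theorem hom_zero {E : Type} [Field E] [Algebra (ZMod 3) E] [FiniteDimensional (ZMod 3) E]
    [Algebra.IsSeparable (ZMod 3) E] (f : Bg (ZMod 3) E → A9) (h1 : ∀ a b, f (a + b) = f a + f b)
    (h2 : ∀ a b, f (a * b) = f a * f b) (v : Dl (ZMod 3) E) :
    f (mkB 0 (bt (ZMod 3) E v v)) = 0 := by
  have hz : f (mkB (0 : Dl (ZMod 3) E) 0) = 0 := by
    have h3 := h1 (mkB (0 : Dl (ZMod 3) E) 0) (mkB (0 : Dl (ZMod 3) E) 0)
    rw [← mkB_add, add_zero, add_zero] at h3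
    exact left_eq_add.1 h3
  let α0 : Dl (ZMod 3) E →+ ZMod 3 := 
    { toFun := fun v => (f (mkB v 0)).1
      map_zero' := by rw [hz]; rfl
      map_add' := by
        intro v w
        have h3 := h1 (mkB v 0) (mkB w 0)
        rw [← mkB_add, add_zero] at h3
        exact congrArg Prod.fst h3 }
  let y0 : (Fm (ZMod 3) E ⧸ Kf (ZMod 3) E) →+ ZMod 3 := 
    { toFun := fun q => (f (mkB 0 q)).2
      map_zero' := by rw [hz]; rfl
      map_add' := by
        intro v w
        have h3 := h1 (mkB 0 v) (mkB 0 w)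
        rw [← mkB_add, add_zero] at h3
        exact congrArg Prod.snd h3 }
  let α : Dl (ZMod 3) E →ₗ[ZMod 3] ZMod 3 := α0.toZModLinearMap 3
  let y : (Fm (ZMod 3) E ⧸ Kf (ZMod 3) E) →ₗ[ZMod 3] ZMod 3 := y0.toZModLinearMap 3
  have h3 : α = 0 := by
    refine key_zero (by decide) y α fun v w => ?_
    have h4 := h2 (mkB v 0) (mkB w 0)
    rw [← mkB_mul] at h4
    exact congrArg Prod.snd h4
  have h5 : (f (mkB v 0)).1 = 0 := LinearMap.congr_fun h3 v
  rw [mkB_mul v v 0 0, h2, NR.mul_def, h5]
  rfl

/-- The main step: a finite set of quasi-identities true in `A9` is also true in a finite commutative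
associative ring of nilpotency class two in which some quasi-identity true in `A9` fails. -/
theorem main (S : Set QuasiIdentity) (hS : S.Finite) (hA : ∀ q ∈ S, q.Holds A9) :
    ∃ (B : Type) (_ : NonUnitalCommRing B), Finite B ∧ (∀ q ∈ S, q.Holds B) ∧
      ∃ q : QuasiIdentity, q.Holds A9 ∧ ¬ q.Holds B := by
  obtain ⟨n, hn⟩ := exists_few_set S hS
  let E := GaloisField 3 (n + 2)
  have hfr : Module.finrank (ZMod 3) E = n + 2 := GaloisField.finrank 3 (by omega)
  have hcomm : ∀ a b : Bg (ZMod 3) E, a * b = b * a := by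
    intro a b
    change ((0 : Dl (ZMod 3) E), bt (ZMod 3) E a.1 b.1) = ((0 : Dl (ZMod 3) E), bt (ZMod 3) E b.1 a.1)
    rw [bt_apply, bt_apply]
    congr 2
    ext x y
    rw [sp_apply, sp_apply]; ring
  let inst : NonUnitalCommRing (Bg (ZMod 3) E) :=
    { (inferInstance : NonUnitalNonAssocRing (Bg (ZMod 3) E)) with
      mul_assoc := fun a b c => by rw [NR.mul_mul_left, NR.mul_mul_right]
      mul_comm := hcomm }
  have hfin : Finite (Bg (ZMod 3) E) := by
    have : Finite (Dl (ZMod 3) E) := Module.finite_of_finite (ZMod 3)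
    have : Finite (Fm (ZMod 3) E) := Module.finite_of_finite (ZMod 3)
    have : Finite (Fm (ZMod 3) E ⧸ Kf (ZMod 3) E) := 
      Finite.of_surjective _ (Submodule.mkQ_surjective (Kf (ZMod 3) E))
    exact Finite.instProd
  obtain ⟨v, hv⟩ : ∃ v : Dl (ZMod 3) E, v ≠ 0 := by
    have : Nontrivial (Dl (ZMod 3) E) := inferInstance
    exact exists_ne 0
  refine ⟨Bg (ZMod 3) E, inst, hfin, fun q hq => ?_, 
    diag (Bg (ZMod 3) E) (mkB 0 (bt (ZMod 3) E v v)), ?_, ?_⟩
  · exact holds_Bg (by decide) (by omega) (hn q hq) (hA q hq)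
  · exact holds_diag _ fun f h1 h2 => hom_zero f h1 h2 v
  · apply not_holds_diag
    intro h
    exact bt_ne_zero (by decide) (by omega) hv (congrArg Prod.snd h)

/-- **Theorem.** There is a finite ring with nine elements which is commutative and associative, hence
alternative and Jordan, and which has no finite basis of quasi-identities. -/
theorem result : ∃ (A : Type) (_ : NonUnitalNonAssocRing A), Nat.card A = 9 ∧
    (∀ x y : A, (x * x) * y = x * (x * y)) ∧ (∀ x y : A, (y * x) * x = y * (x * x)) ∧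
    (∀ x y : A, x * y = y * x) ∧ (∀ x y : A, ((x * x) * y) * x = (x * x) * (y * x)) ∧
    (∀ x y z : A, (x * y) * z = x * (y * z)) ∧
    (¬ ∃ S : Set QuasiIdentity, S.Finite ∧ IsBasis A S) ∧
    ∀ S : Set QuasiIdentity, S.Finite → (∀ q ∈ S, q.Holds A) →
      ∃ (B : Type) (_ : NonUnitalCommRing B), Finite B ∧ (∀ q ∈ S, q.Holds B) ∧
        ∃ q : QuasiIdentity, q.Holds A ∧ ¬ q.Holds B := by
  refine ⟨A9, inferInstance, ?_, fun x y => ?_, fun x y => ?_, fun x y => ?_, fun x y => ?_, 
    fun x y z => ?_, ?_, main⟩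
  · change Nat.card (ZMod 3 × ZMod 3) = 9
    rw [Nat.card_prod, Nat.card_zmod]
  · rw [NR.mul_mul_left, NR.mul_mul_right]
  · rw [NR.mul_mul_left, NR.mul_mul_right]
  · change ((0 : ZMod 3), x.1 * y.1) = ((0 : ZMod 3), y.1 * x.1)
    rw [mul_comm]
  · rw [NR.mul_mul_left, NR.mul_mul_right]
  · rw [NR.mul_mul_left, NR.mul_mul_right]
  · rintro ⟨S, hS, hb1, hb2⟩
    obtain ⟨B, inst, _, hB, q, hq1, hq2⟩ := main S hS hb1
    exact hq2 (hb2 q hq1 B hB)

end Pool.Agent.Results.MP_db5ef1_al.NoFiniteBasis
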